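import Pool.Agent.K7.H50.RJ.Non

set_option autoImplicit false

/-!
# MP_41b9a7_lc, Q2: a deterministic algorithm of ratio below 2 in the non-preemptive model

There is a deterministic online algorithm for scheduling with rejection on three machines whose
cost is at most `1.99` times the optimal non-preemptive cost, for every input.

The algorithm: let `P` be the total penalty of the jobs rejected so far. A job `(t, p)` is
accepted, and put on a least loaded machine, if `t ≤ 1.99 p`, or if `t ≤ 2.11 p` and `P ≥ t / 5`;
otherwise it is rejected.

Proof: let the offline schedule have makespan `T`. The critical case is that it accepts three jobs
of length about `T`, of which the algorithm rejects two; but the second of these has `P ≥ t / 5`,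
so that its penalty is at most `t / 2.11`. If the last job of the algorithm is rejected offline and
has `t > 1.99 p`, then `P ≥ t / 5` at its arrival, and these penalties are either paid offline or
belong to jobs of total length at most `3 T`.
-/

namespace Pool.Agent.Results.MP_41b9a7_lc.NonpreemptiveBelowTwo

open Pool.Agent.K7.H50.RJ

/-- Some deterministic online algorithm is `1.99`-competitive in the non-preemptive model. -/
theorem result : ∃ A : List Job → Option (Fin 3), Competitive A (199 / 100) :=
  ⟨alg, competitive_alg⟩

end Pool.Agent.Results.MP_41b9a7_lc.NonpreemptiveBelowTwo
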